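import Mathlib
import Pool.Agent.H917R2.Tr.Stubs

/-!
Second gluing: `(1+δ)`-traces comparable with a given faithful `2`-trace (helper477).
-/

open scoped ComplexOrder InnerProductSpace Topology
open Filter

noncomputable section

namespace H477R2.Gtwo

open H759R2.Kad H710R2.DP H917R2.Tr

theorem split {H : Type} [NormedAddCommGroup H] [InnerProductSpace ℂ H] {T : Type}
    (g : T → (H →L[ℂ] H)) (hg : ∀ η : H, HasSum (fun t => ‖g t η‖ ^ 2) (‖η‖ ^ 2))
    (ξ : ℕ → H) (x : H →L[ℂ] H) (hx : Summable fun k => ‖x (ξ k)‖ ^ 2) :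
    HasSum (fun t => mu ξ (g t * x)) (mu ξ x) := by
  have h1 : Summable (fun p : ℕ × T => ‖g p.2 (x (ξ p.1))‖ ^ 2) := by
    rw [summable_prod_of_nonneg (fun p => by positivity)]
    refine ⟨fun k => (hg (x (ξ k))).summable, ?_⟩
    have : (fun k => ∑' t, ‖g t (x (ξ k))‖ ^ 2) = fun k => ‖x (ξ k)‖ ^ 2 :=
      funext fun k => (hg (x (ξ k))).tsum_eq
    rw [this]
    exact hx
  have h2 : Summable (fun p : T × ℕ => ‖g p.1 (x (ξ p.2))‖ ^ 2) :=
    h1.prod_symm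
  have h3 : HasSum (fun t => ∑' k, ‖g t (x (ξ k))‖ ^ 2)
      (∑' p : T × ℕ, ‖g p.1 (x (ξ p.2))‖ ^ 2) :=
    h2.hasSum.prod_fiberwise fun t => (h2.prod_factor t).hasSum
  have h4 : ∑' p : T × ℕ, ‖g p.1 (x (ξ p.2))‖ ^ 2 = mu ξ x := by
    have e1 : ∑' p : T × ℕ, ‖g p.1 (x (ξ p.2))‖ ^ 2 =
        ∑' p : ℕ × T, ‖g p.2 (x (ξ p.1))‖ ^ 2 :=
      (Equiv.prodComm ℕ T).symm.tsum_eq (fun p : ℕ × T => ‖g p.2 (x (ξ p.1))‖ ^ 2)
    rw [e1, h1.tsum_prod]
    exact tsum_congr fun k => (hg (x (ξ k))).tsum_eq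
  rw [h4] at h3
  exact h3

theorem p_G_two (h2 : L_loc) (h3 : L_cop) (h4 : G_part) (h5 : G_join) (h6 : T_mu) : G_two := by
  intro H _ _ _ _ M hM ξ hξ hqt hfa δ hδ
  obtain ⟨mS, mN, mB, mC, mW, _⟩ := h6 H ℕ ξ hξ
  have hfa' : ∀ x ∈ M, mu ξ x = 0 → x = 0 := fun x hx h => hfa x hx (one_mul x) h
  have hq : ∀ x ∈ M, mu ξ x ≤ 2 * mu ξ (star x) := fun x hx => hqt x hx (one_mul x)
  have hloc : ∀ z₀, IsCP M z₀ → z₀ ≠ 0 → ∃ g, IsCP M g ∧ g ≠ 0 ∧ z₀ * g = g ∧ ∃ ζ : ℕ → H,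
      Sq ζ ∧ (∀ k, g (ζ k) = ζ k) ∧
      (∀ x ∈ M, g * x = x → mu ζ x ≤ (1 + δ) * mu ζ (star x)) ∧
      ∀ x ∈ M, g * x = x → mu ζ x ≤ 4 * mu ξ x ∧ mu ξ x ≤ 4 * mu ζ x := by
    intro z₀ hz hz0
    obtain ⟨g, hg, hg0, hzg, n, w, hw, hsum, htr⟩ := h2 H M hM ξ hξ hfa' δ hδ z₀ hz hz0
    obtain ⟨ζ, hζ, hgζ, hmu⟩ := h3 H ξ g n w hξ (fun j => (hw j).2)
    refine ⟨g, hg, hg0, hzg, ζ, hζ, hgζ, ?_, ?_⟩
    · intro x hx hgx
      rw [hmu, hmu]
      exact htr x hx hgx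
    · intro x hx hgx
      have hsx : star x ∈ M := star_mem hx
      have hgs : star g = g := hg.1.1
      have hgsx : g * star x = star x := by
        rw [hg.2.2 _ hsx]
        have := congrArg star hgx
        rwa [star_mul, hgs] at this
      have e5 : mu ξ (star x) = ∑ i, mu ξ (star (w i) * star x) := by
        refine mW n w (star x) ?_
        rw [hsum, hgsx]
      constructor
      · calc mu ζ x = ∑ j, mu ξ (x * w j) := hmu x
          _ ≤ ∑ j, 2 * mu ξ (star (w j) * star x) := by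
              refine Finset.sum_le_sum fun j _ => ?_
              have := hq (x * w j) (mul_mem hx (hw j).1)
              rwa [star_mul] at this
          _ = 2 * mu ξ (star x) := by rw [← Finset.mul_sum, e5]
          _ ≤ 2 * (2 * mu ξ x) := by
              have := hq (star x) hsx
              rw [star_star] at this
              linarith
          _ = 4 * mu ξ x := by ring
      · calc mu ξ x ≤ 2 * mu ξ (star x) := hq x hx
          _ = 2 * ∑ j, mu ξ (star (w j) * star x) := by rw [e5]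
          _ ≤ 2 * ∑ j, 2 * mu ξ (x * w j) := by
              refine mul_le_mul_of_nonneg_left (Finset.sum_le_sum fun j _ => ?_) (by norm_num)
              have := hq (star (w j) * star x) (mul_mem (star_mem (hw j).1) hsx)
              rwa [star_mul, star_star, star_star] at this
          _ = 4 * mu ζ x := by
              rw [← Finset.mul_sum, hmu]
              ring
  obtain ⟨T, hT, g, ζ, hgP, _, hpart⟩ := h4 H M (fun g ζ => Sq ζ ∧ (∀ k, g (ζ k) = ζ k) ∧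
      (∀ x ∈ M, g * x = x → mu ζ x ≤ (1 + δ) * mu ζ (star x)) ∧
      ∀ x ∈ M, g * x = x → mu ζ x ≤ 4 * mu ξ x ∧ mu ξ x ≤ 4 * mu ζ x) hloc
  -- `mu (ζ t) x = mu (ζ t) (g t * x)`
  have hgmem : ∀ t, g t ∈ M := fun t => (hgP t).1.2.1
  have hgidem : ∀ t, g t * g t = g t := fun t => (hgP t).1.1.2
  have hfix : ∀ t, ∀ x ∈ M, mu (ζ t) x = mu (ζ t) (g t * x) := by
    intro t x hx
    rw [(hgP t).1.2.2 x hx]
    unfold mu
    refine tsum_congr fun k => ?_
    rw [show (x * g t) (ζ t k) = x (g t (ζ t k)) from rfl, (hgP t).2.2.1 k]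
  have hgx : ∀ t, ∀ x ∈ M, g t * x ∈ M ∧ g t * (g t * x) = g t * x := by
    intro t x hx
    exact ⟨mul_mem (hgmem t) hx, by rw [← mul_assoc, hgidem]⟩
  have hstar : ∀ t, ∀ x ∈ M, star (g t * x) = g t * star x := by
    intro t x hx
    rw [star_mul, (hgP t).1.1.1, (hgP t).1.2.2 _ (star_mem hx)]
  have hspl : ∀ x : H →L[ℂ] H, HasSum (fun t => mu ξ (g t * x)) (mu ξ x) :=
    fun x => split g hpart ξ x (mS x)
  have hsummable : Summable fun t => mu (ζ t) 1 := by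
    have h1 : Summable fun t => 4 * mu ξ (g t * 1) := (hspl 1).summable.mul_left 4
    refine Summable.of_nonneg_of_le (fun t => ?_) (fun t => ?_) h1
    · exact (h6 H ℕ (ζ t) (hgP t).2.1).2.1 1
    · rw [hfix t 1 (one_mem M)]
      exact ((hgP t).2.2.2.2 _ (hgx t 1 (one_mem M)).1 (hgx t 1 (one_mem M)).2).1
  obtain ⟨χ, hχ, hsumχ⟩ := h5 H T ζ (fun t => (hgP t).2.1) hsummable
  refine ⟨χ, hχ, ?_, ?_⟩
  · intro x hx _
    refine hasSum_le (fun t => ?_) (hsumχ x) ((hsumχ (star x)).mul_left (1 + δ))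
    rw [hfix t x hx, hfix t (star x) (star_mem hx), ← hstar t x hx]
    exact (hgP t).2.2.2.1 _ (hgx t x hx).1 (hgx t x hx).2
  · intro x hx
    constructor
    · refine hasSum_le (fun t => ?_) (hsumχ x) ((hspl x).mul_left 4)
      rw [hfix t x hx]
      exact ((hgP t).2.2.2.2 _ (hgx t x hx).1 (hgx t x hx).2).1
    · refine hasSum_le (fun t => ?_) (hspl x) ((hsumχ x).mul_left 4)
      rw [hfix t x hx]
      exact ((hgP t).2.2.2.2 _ (hgx t x hx).1 (hgx t x hx).2).2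

end H477R2.Gtwo
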